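import Pool.Agent.TMX.Stmts4

/-!
# Squad TMX, row ChD: strong induction over chains
-/

set_option autoImplicit false

open Finset

namespace Pool.Agent.TMX.H30

open Pool.Agent.TMX
open Pool.Agent.Helper51_Max (I IsMax)
open Pool.Agent.Helper37_EM (var)

theorem sum_icc_split (a : ℕ → ℝ) {t p : ℕ} (h : t ≤ p) :
    ∑ i ∈ Icc t p, a i = a t + ∑ i ∈ Ioc t p, a i := by
  have h1 : Icc t p = insert t (Ioc t p) := by
    ext i
    simp only [mem_Icc, mem_insert, mem_Ioc]
    omega
  rw [h1, sum_insert]
  simp

theorem chD : ChD := by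
  intro hVB hReach hChB N g M hM
  obtain ⟨-, hB2, hB3, hB4, -⟩ := hChB N g
  have hn0 : (0 : ℝ) ≤ N := Nat.cast_nonneg N
  have key : ∀ q p : ℕ, ∀ T : ℝ, Ch N g p q T → q ≤ N →
      ((N : ℝ) + 1) * ((g p - M 0) + T) ≤ N * var g 0 q + ∑ i ∈ range q, g i := by
    intro q
    induction q using Nat.strong_induction_on with
    | _ q ih =>
    intro p T hch hqN
    have hpq : p ≤ q := hB2 p q T hch
    obtain ⟨w, hw, hwmin⟩ := exists_min_image (Icc 0 q) g ⟨0, by simp⟩
    have hwq : w ≤ q := (mem_Icc.1 hw).2
    have hmu : ∀ i, i ≤ q → g w ≤ g i := fun i hi => hwmin i (mem_Icc.2 ⟨Nat.zero_le _, hi⟩)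
    set μ := g w with hμ
    have hμ0 : 0 ≤ μ := hM.nonneg w
    have hvn : ∀ (u : ℕ → ℝ) (a b : ℕ), 0 ≤ var u a b := fun u a b =>
      sum_nonneg fun i _ => abs_nonneg _
    rcases Nat.lt_or_ge p w with hcase | hcase
    · obtain ⟨s, t, Q, T₁, T₂, hc1, hsw, hwt, hvg, hc2, hT⟩ := hB4 p q T w hch hcase hwq
      have htq : t ≤ q := hB2 t q T₂ hc2
      have hst : s < t := by omega
      have hok := hvg.ii μ q hμ0 htq hqN hmu
      have hIH := ih s (by omega) p T₁ hc1 (by omega)
      have hT₂ := hB3 t q T₂ hc2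
      have hVBt := hVB g t q μ htq (fun i _ hi => hmu i hi)
      have e2 : var g 0 q = var g 0 s + var g s t + var g t q := by
        rw [Pool.Agent.Helper37_EM.var_add (Nat.zero_le t) htq,
          Pool.Agent.Helper37_EM.var_add (Nat.zero_le s) hst.le]
      have hA : g s + g t - 2 * μ ≤ var g s t := by
        have h1 : var g s t = var g s w + var g w t := by
          rw [Pool.Agent.Helper37_EM.var_add hsw.le hwt]
        have h2 := Pool.Agent.Helper37_EM.abs_le_var g hsw.le
        have h3 := Pool.Agent.Helper37_EM.abs_le_var g hwt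
        have h4 := le_abs_self (g s - g w)
        have h5 := neg_abs_le (g w - g t)
        rw [h1]
        linarith
      have hS := sum_icc_split (fun i => g i - μ) htq
      have hsum : ∑ i ∈ range q, g i = ∑ i ∈ range s, g i + ∑ i ∈ Ico s q, g i := by
        rw [range_eq_Ico, range_eq_Ico, sum_Ico_consecutive g (Nat.zero_le s) (by omega)]
      have hS1 : g s + ∑ i ∈ Ico t q, (g i - μ) ≤ ∑ i ∈ Ico s q, g i := by
        have h1 : ∑ i ∈ Ico s q, g i = ∑ i ∈ Ico s t, g i + ∑ i ∈ Ico t q, g i := by
          rw [sum_Ico_consecutive g hst.le htq]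
        have h2 : g s ≤ ∑ i ∈ Ico s t, g i :=
          single_le_sum (f := g) (fun i _ => hM.nonneg i) (mem_Ico.2 ⟨le_rfl, hst⟩)
        have h3 : ∑ i ∈ Ico t q, (g i - μ) ≤ ∑ i ∈ Ico t q, g i :=
          sum_le_sum fun i _ => by linarith
        rw [h1]
        linarith
      rw [e2, hsum, hT]
      rw [hS] at hok
      set S1 := ∑ i ∈ Ico t q, (g i - μ) with hS1d
      set S2 := ∑ i ∈ Ioc t q, (g i - μ) with hS2d
      set n := (N : ℝ) with hn
      have k1 : (n + 1) * T₂ ≤ (n + 1) * var g t q :=
        mul_le_mul_of_nonneg_left hT₂ (by linarith)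
      have k2 : n * (g s + g t - 2 * μ) ≤ n * var g s t := mul_le_mul_of_nonneg_left hA hn0
      have k3 : 2 * (n + 1) * (Q - μ) =
          (n + 1) * (g s + g t - 2 * μ) - (n + 1) * (g s + g t - 2 * Q) := by ring
      rw [k3] at hok
      have k4 : (n + 1) * ((g p - M 0) + (T₁ + (g s + g t - 2 * Q) + T₂)) =
          (n + 1) * ((g p - M 0) + T₁) + (n + 1) * (g s + g t - 2 * Q) + (n + 1) * T₂ := by ring
      have k5 : n * (var g 0 s + var g s t + var g t q) =
          n * var g 0 s + n * var g s t + n * var g t q := by ring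
      have k6 : (n + 1) * (g s + g t - 2 * μ) = n * (g s + g t - 2 * μ) + (g s + g t - 2 * μ) := by
        ring
      have k7 : (n + 1) * var g t q = n * var g t q + var g t q := by ring
      rw [k4, k5]
      linarith
    · have hT := hB3 p q T hch
      have hVBt := hVB g p q μ hpq (fun i _ hi => hmu i hi)
      have e2 : var g 0 q = var g 0 p + var g p q := by
        rw [Pool.Agent.Helper37_EM.var_add (Nat.zero_le p) hpq]
      have hI : I N 0 q = Icc 0 q := by
        unfold Pool.Agent.Helper51_Max.I
        congr 1 <;> omega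
      have hR := (hReach N g M hM).1 0 q μ (Nat.zero_le _) (by
        rw [hI]
        exact sum_nonneg fun i hi => by
          have := hmu i (mem_Icc.1 hi).2
          linarith)
      rw [hI] at hR
      have hvg : g p - μ ≤ var g 0 p := by
        have h1 : var g 0 p = var g 0 w + var g w p := by
          rw [Pool.Agent.Helper37_EM.var_add (Nat.zero_le w) hcase]
        have h2 := hvn g 0 w
        have h3 := Pool.Agent.Helper37_EM.abs_le_var g hcase
        have h4 := neg_abs_le (g w - g p)
        rw [h1]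
        linarith
      have hA : (g p - μ) + ∑ i ∈ Ioc p q, (g i - μ) ≤ ∑ i ∈ Icc 0 q, (g i - μ) := by
        rw [← sum_icc_split (fun i => g i - μ) hpq]
        refine sum_le_sum_of_subset_of_nonneg ?_ ?_
        · intro i hi
          rw [mem_Icc] at hi ⊢
          omega
        · intro i hi _
          have := hmu i (mem_Icc.1 hi).2
          linarith
      have hB : ∑ i ∈ Ico p q, (g i - μ) ≤ ∑ i ∈ range q, g i := by
        have h3 : ∑ i ∈ Ico p q, (g i - μ) ≤ ∑ i ∈ Ico p q, g i :=
          sum_le_sum fun i _ => by linarith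
        refine h3.trans (sum_le_sum_of_subset_of_nonneg ?_ fun i _ _ => hM.nonneg i)
        intro i hi
        rw [mem_Ico] at hi
        rw [mem_range]
        exact hi.2
      rw [e2]
      set S0 := ∑ i ∈ Icc 0 q, (g i - μ) with hS0d
      set S1 := ∑ i ∈ Ico p q, (g i - μ) with hS1d
      set S2 := ∑ i ∈ Ioc p q, (g i - μ) with hS2d
      set n := (N : ℝ) with hn
      have k1 : (n + 1) * T ≤ (n + 1) * var g p q :=
        mul_le_mul_of_nonneg_left hT (by linarith)
      have k2 : n * (g p - μ) ≤ n * var g 0 p := mul_le_mul_of_nonneg_left hvg hn0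
      have k3 : (n + 1) * (g p - M 0 + T) =
          n * (g p - μ) + (g p - μ) - (n + 1) * (M 0 - μ) + (n + 1) * T := by ring
      have k4 : n * (var g 0 p + var g p q) = n * var g 0 p + n * var g p q := by ring
      have k5 : (n + 1) * var g p q = n * var g p q + var g p q := by ring
      rw [k3, k4]
      linarith
  intro p q T hch hqN
  exact key q p T hch hqN

end Pool.Agent.TMX.H30
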