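import Pool.Agent.TMX.Stmts5

/-!
# Squad TMX, row SC: part C of the state at `t`
-/

set_option autoImplicit false

open Finset

namespace Pool.Agent.TMX.H30C

open Pool.Agent.TMX
open Pool.Agent.Helper51_Max (I IsMax)
open Pool.Agent.Helper37_EM (var)

theorem sit_of_bd {N : ℕ} {g M : ℕ → ℝ} {y z y' r c i j p p' : ℕ} (h : BD N g M y z y' r c i j)
    (hp : p ≤ c) (hp' : c ≤ p') (hN : p' ≤ N) : Sit N g M y z y' r c y y' p p' :=
  ⟨h.geo, h.top, h.c1, h.c2, h.cy, h.cy', h.cmin, h.geo, le_rfl, le_rfl, hp, hp', hN,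
    Or.inl rfl, Or.inl rfl⟩

theorem sC : SC := by
  intro hVPl hVBad hNC hChB hOrd hLP hLR hLL hDB N g M Bad y z y' r c i j hF s t hgap hS s₂ t₂ hcr
  obtain ⟨hB1, -, -, -, hB5⟩ := hChB N g
  have hM : IsMax N g M := hF.max
  obtain ⟨hg2, hb2, hts, hct⟩ := hcr
  obtain ⟨o1, o2, o3, o4⟩ := hOrd N g M Bad y z y' r c i j hF s t hgap
  have hst : s < t := hgap.lt
  have htN : t ≤ N := hgap.right.1
  have hsN : s ≤ N := hgap.left.1
  have hvar : M 0 + var M 0 t = M 0 + var M 0 s + (g s + g t - 2 * Qv g M s t) := by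
    rw [Pool.Agent.Helper37_EM.var_add (Nat.zero_le s) hst.le]
    unfold Qv
    ring
  have bd2 := hF.bd s₂ t₂ hg2 hb2
  have lo2 := hF.lo s₂ t₂ hg2 hb2
  rcases Nat.lt_or_ge (c s₂) s with hcase | hcase
  · -- `c s₂ < s`
    obtain ⟨Q', p, T, hQ', hch, hle⟩ := hS.C s₂ t₂ ⟨hg2, hb2, by omega, hcase⟩
    have hnb : ¬ Bad s := by
      intro hb
      obtain ⟨a1, -, -⟩ := o4 s₂ t₂ hg2 hb hb2 (by omega)
      obtain ⟨-, -, -, a2, -⟩ := o3 hb
      omega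
    obtain ⟨v, hsv, hvt, hQv⟩ := hF.plain s t hgap hnb
    have hvg := hVPl N g M hM s t v (M v) hsv hvt htN le_rfl
    refine ⟨Q', p, _, hQ', hB1 p s t T _ hch (hB5 s t (M v) hst hvg), ?_⟩
    rw [hvar, hQv]
    linarith
  by_cases hbs : Bad s
  · -- `s` bad
    obtain ⟨e1, e2, e3, e4, e5⟩ := o3 hbs
    have hss : s < s₂ := by omega
    have hdis := hF.dis s t s₂ t₂ hgap hg2 hbs hb2 hss
    have hi1 := bd2.i1
    have hi3 := bd2.i3
    have hc1 := bd2.c1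
    have hic : i s₂ < c s₂ := by omega
    have hzi : z s + r s < i s₂ := by omega
    have hit : i s₂ < t := by omega
    have hvg2 := hVBad N g M hM _ _ _ _ _ _ _ (i s₂) t (sit_of_bd bd2 hic.le hct.le htN)
    have hch2 := hB5 (i s₂) t _ hit hvg2
    have hQ' : M (y s₂) ≤ g (i s₂) := (bd2.geo.My.trans bd2.i4).le
    have hQs := hF.Q s t hgap hbs
    have hbd := hF.bd s t hgap hbs
    obtain ⟨hl1, hl2⟩ := hLP hVBad hChB hOrd N g M Bad y z y' r c i j hF s t hgap hbs hS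
    rcases Nat.lt_or_ge (c s) s with hcs | hcs
    · obtain ⟨Q'', p, T, hQ'', hch, hle⟩ := hl2 hcs
      have hlo := hF.lo s t hgap hbs
      have hyz := hbd.geo.yz
      have hvg := hVPl N g M hM s (i s₂) (y s) Q'' hlo (by omega) (by omega) hQ''
      have hch1 := hB5 s (i s₂) Q'' (by omega) hvg
      refine ⟨g (i s₂), p, _, hQ', hB1 p (i s₂) t _ _ (hB1 p s (i s₂) T _ hch hch1) hch2, ?_⟩
      rw [hvar, hQs]
      linarith
    · obtain ⟨x, p, T, hsx, hxy, hxc, hch, hle⟩ := hl1 hcs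
      have hvg := hVBad N g M hM _ _ _ _ _ _ _ x (i s₂) (sit_of_bd hbd hxc (by omega) (by omega))
      have hch1 := hB5 x (i s₂) _ (by omega) hvg
      refine ⟨g (i s₂), p, _, hQ', hB1 p (i s₂) t _ _ (hB1 p x (i s₂) T _ hch hch1) hch2, ?_⟩
      rw [hvar, hQs]
      linarith
  · -- `s` not bad
    obtain ⟨v, hsv, hvt, hQv⟩ := hF.plain s t hgap hbs
    by_cases hR : ∃ s₁ t₁, CrR N g M Bad c s s₁ t₁
    · obtain ⟨s₁, t₁, hcr1⟩ := hR
      obtain ⟨hg1, hb1, hts1, hsc1⟩ := hcr1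
      have hlt1 := hg1.lt
      have hss : s₁ < s₂ := by omega
      have hdis := hF.dis s₁ t₁ s₂ t₂ hg1 hg2 hb1 hb2 hss
      have hhi1 := hF.hi s₁ t₁ hg1 hb1
      obtain ⟨Q₁, Q₂, T, hQ1, hQ2, hch, hT⟩ := hDB hLR hLL hVBad hVPl hNC hChB N g M hM
        (y s₁) (z s₁) (y' s₁) (r s₁) (c s₁) (i s₁) (j s₁)
        (y s₂) (z s₂) (y' s₂) (r s₂) (c s₂) (i s₂) (j s₂) s t v
        (hF.bd s₁ t₁ hg1 hb1) bd2 hdis (by omega) hsc1.le (by omega) hct.le hsv hvt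
      obtain ⟨p, T', hch', hle⟩ := hS.B s₁ t₁ ⟨hg1, hb1, hts1, hsc1⟩ Q₁ hQ1
      refine ⟨Q₂, p, _, hQ2, hB1 p s t T' T hch' hch, ?_⟩
      rw [hvar, hQv, hT]
      linarith
    · have hnR : ∀ s₁ t₁, ¬ CrR N g M Bad c s s₁ t₁ := fun s₁ t₁ h => hR ⟨s₁, t₁, h⟩
      have hnL : ∀ s₃ t₃, ¬ CrL N g M Bad c s s₃ t₃ := by
        rintro s₃ t₃ ⟨hg3, hb3, hs3, hc3⟩
        rcases o2 s₃ t₃ hg3 hs3 with h | h
        · rw [h] at hb3
          exact hbs hb3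
        rcases Nat.lt_trichotomy s₃ s₂ with h1 | h1 | h1
        · obtain ⟨-, -, q3, q4⟩ := hOrd N g M Bad y z y' r c i j hF s₃ t₃ hg3
          obtain ⟨-, -, -, a2, -⟩ := q3 hb3
          obtain ⟨a1, -, -⟩ := q4 s₂ t₂ hg2 hb3 hb2 h1
          omega
        · rw [h1] at hc3
          omega
        · obtain ⟨-, -, q3, q4⟩ := hOrd N g M Bad y z y' r c i j hF s₂ t₂ hg2
          obtain ⟨-, -, -, a2, -⟩ := q3 hb2
          obtain ⟨a1, -, -⟩ := q4 s₃ t₃ hg3 hb2 hb3 h1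
          omega
      obtain ⟨p, T', hch', hle⟩ := hS.A hnR hnL
      obtain ⟨Q', T, hQ', hch, hT⟩ := hLL hVBad hVPl hNC hChB N g M hM
        (y s₂) (z s₂) (y' s₂) (r s₂) (c s₂) (i s₂) (j s₂) s t v bd2 (by omega) hcase hct.le hst
        hsv hvt
      refine ⟨Q', p, _, hQ', hB1 p s t T' T hch' hch, ?_⟩
      rw [hvar, hQv, hT]
      linarith

end Pool.Agent.TMX.H30C
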